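import Mathlib

set_option autoImplicit false

/-!
# Extremal multidimensional (0,1)-matrices: optimal hyperplane covers

A `d`-dimensional `(0,1)`-matrix of order `n` is given by the set `A` of the indices
`α : Fin d → Fin n` of its unit entries.
-/

namespace Pool.Agent.Q216.EX

open Finset

/-- `K` is a polyplex of the matrix with unit entries `A`. -/
def IsPolyplex {d n : ℕ} (A : Set (Fin d → Fin n)) (K : (Fin d → Fin n) → ℝ) : Prop :=
  (∀ α, 0 ≤ K α) ∧ (∀ α, α ∉ A → K α = 0) ∧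
    ∀ (i : Fin d) (j : Fin n), ∑ α with α i = j, K α ≤ 1

/-- a polydiagonal is a polyplex of weight `n`. -/
def IsPolydiagonal {d n : ℕ} (A : Set (Fin d → Fin n)) (K : (Fin d → Fin n) → ℝ) : Prop :=
  IsPolyplex A K ∧ ∑ α, K α = (n : ℝ)

/-- extremal: no polydiagonal, but changing any zero entry to `1` creates one. -/
def IsExtremal {d n : ℕ} (A : Set (Fin d → Fin n)) : Prop :=
  (¬ ∃ K, IsPolydiagonal A K) ∧ ∀ β, β ∉ A → ∃ K, IsPolydiagonal (insert β A) K

/-- `δ` is the deficiency of the matrix: `n - δ` is the maximum weight of a polyplex. -/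
def HasDeficiency {d n : ℕ} (A : Set (Fin d → Fin n)) (δ : ℝ) : Prop :=
  (∃ K, IsPolyplex A K ∧ ∑ α, K α = (n : ℝ) - δ) ∧
    ∀ K, IsPolyplex A K → ∑ α, K α ≤ (n : ℝ) - δ

/-- a hyperplane cover. -/
def IsCover {d n : ℕ} (A : Set (Fin d → Fin n)) (L : Fin d → Fin n → ℝ) : Prop :=
  (∀ i j, 0 ≤ L i j) ∧ ∀ α, α ∈ A → 1 ≤ ∑ i, L i (α i)

/-- an optimal hyperplane cover: one of minimum weight. -/
def IsOptimalCover {d n : ℕ} (A : Set (Fin d → Fin n)) (L : Fin d → Fin n → ℝ) : Prop :=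
  IsCover A L ∧ ∀ M, IsCover A M → ∑ i, ∑ j, L i j ≤ ∑ i, ∑ j, M i j

/-- the double count `∑_α K α ∑_i L i (α i) = ∑_{i,j} L i j * ∑_{α i = j} K α`. -/
theorem double_count {d n : ℕ} (K : (Fin d → Fin n) → ℝ) (L : Fin d → Fin n → ℝ) :
    ∑ α, K α * ∑ i, L i (α i) = ∑ i, ∑ j, L i j * ∑ α with α i = j, K α := by
  simp only [Finset.mul_sum]
  rw [Finset.sum_comm]
  refine Finset.sum_congr rfl (fun i _ => ?_)
  simp only [Finset.sum_filter]
  rw [Finset.sum_comm]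
  refine Finset.sum_congr rfl (fun α _ => ?_)
  rw [Finset.sum_eq_single (α i)]
  · simp [mul_comm]
  · intro b _ hb
    simp [hb.symm]
  · intro h
    exact absurd (Finset.mem_univ _) h

/-- weak duality. -/
theorem weak_duality {d n : ℕ} {A : Set (Fin d → Fin n)} {K : (Fin d → Fin n) → ℝ}
    {L : Fin d → Fin n → ℝ} (hK : IsPolyplex A K) (hL : IsCover A L) :
    ∑ α, K α ≤ ∑ i, ∑ j, L i j := by
  calc ∑ α, K α ≤ ∑ α, K α * ∑ i, L i (α i) := by
        refine Finset.sum_le_sum (fun α _ => ?_)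
        by_cases h : α ∈ A
        · have := hL.2 α h
          nlinarith [hK.1 α]
        · rw [hK.2.1 α h]; simp
    _ = ∑ i, ∑ j, L i j * ∑ α with α i = j, K α := double_count K L
    _ ≤ ∑ i, ∑ j, L i j := by
        refine Finset.sum_le_sum (fun i _ => Finset.sum_le_sum (fun j _ => ?_))
        have h1 := hK.2.2 i j
        have h2 := hL.1 i j
        nlinarith

/-- the weights -/
def w : Fin 9 → ℤ := ![13, 7, 6, 6, 4, 4, 4, 3, 2]

/-- the weights with the last two exchanged -/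
def w' : Fin 9 → ℤ := ![13, 7, 6, 6, 4, 4, 4, 2, 3]

/-- the counterexample: unit entries are the `α` with `∑_{α i = 1} w i ≥ 25`. -/
def A : Set (Fin 9 → Fin 2) := {α | 25 ≤ ∑ i, w i * ((α i : ℕ) : ℤ)}

theorem mem_A (α : Fin 9 → Fin 2) : α ∈ A ↔ 25 ≤ ∑ i, w i * ((α i : ℕ) : ℤ) := Iff.rfl

theorem mem_A' (α : Fin 9 → Fin 2) (h : α ∈ A) : 25 ≤ ∑ i, w' i * ((α i : ℕ) : ℤ) := by
  rw [mem_A] at h
  have hb : ∀ i, ((α i : ℕ) : ℤ) ≤ 1 := fun i => by
    have := (α i).isLt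
    omega
  have hp : ∀ i, 0 ≤ ((α i : ℕ) : ℤ) := fun i => by positivity
  simp only [Fin.sum_univ_succ, w, w'] at h ⊢
  simp [Fin.succ] at h ⊢
  have h0 := hb 0; have h1 := hb 1; have h2 := hb 2; have h3 := hb 3; have h4 := hb 4
  have h5 := hb 5; have h6 := hb 6; have h7 := hb 7; have h8 := hb 8
  have p0 := hp 0; have p1 := hp 1; have p2 := hp 2; have p3 := hp 3; have p4 := hp 4
  have p5 := hp 5; have p6 := hp 6; have p7 := hp 7; have p8 := hp 8
  clear hb hp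
  generalize ((α 0 : ℕ) : ℤ) = a at *
  generalize ((α 1 : ℕ) : ℤ) = b at *
  generalize ((α 2 : ℕ) : ℤ) = c at *
  generalize ((α 3 : ℕ) : ℤ) = d at *
  generalize ((α 4 : ℕ) : ℤ) = e at *
  generalize ((α 5 : ℕ) : ℤ) = f at *
  generalize ((α 6 : ℕ) : ℤ) = g at *
  generalize ((α 7 : ℕ) : ℤ) = u at *
  generalize ((α 8 : ℕ) : ℤ) = v at *
  have ha : a = 0 ∨ a = 1 := by omega
  have hb : b = 0 ∨ b = 1 := by omega
  have hs : c + d = 0 ∨ c + d = 1 ∨ c + d = 2 := by omega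
  have ht : e + f + g = 0 ∨ e + f + g = 1 ∨ e + f + g = 2 ∨ e + f + g = 3 := by omega
  rcases ha with ha | ha <;> rcases hb with hb | hb <;> rcases hs with hs | hs | hs <;>
    rcases ht with ht | ht | ht | ht <;> omega

/-- the average weights (times two) -/
def v : Fin 9 → ℤ := ![26, 14, 12, 12, 8, 8, 8, 5, 5]

theorem v_eq (i : Fin 9) : v i = w i + w' i := by
  fin_cases i <;> rfl

theorem mem_Av (α : Fin 9 → Fin 2) (h : α ∈ A) : 50 ≤ ∑ i, v i * ((α i : ℕ) : ℤ) := by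
  have h1 := mem_A' α h
  rw [mem_A] at h
  have h2 : ∑ i, v i * ((α i : ℕ) : ℤ) =
      ∑ i, w i * ((α i : ℕ) : ℤ) + ∑ i, w' i * ((α i : ℕ) : ℤ) := by
    rw [← Finset.sum_add_distrib]
    refine Finset.sum_congr rfl (fun i _ => ?_)
    rw [v_eq]; ring
  omega

/-- the optimal covers -/
noncomputable def cov (z : Fin 9 → ℤ) (m : ℝ) : Fin 9 → Fin 2 → ℝ :=
  fun i j => (z i : ℝ) * ((j : ℕ) : ℝ) / m

theorem cov_cover (z : Fin 9 → ℤ) (m : ℤ) (hm : 0 < m) (hz : ∀ i, 0 ≤ z i)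
    (h : ∀ α ∈ A, m ≤ ∑ i, z i * ((α i : ℕ) : ℤ)) : IsCover A (cov z m) := by
  have hm' : (0 : ℝ) < m := by exact_mod_cast hm
  refine ⟨fun i j => ?_, fun α hα => ?_⟩
  · have : (0 : ℝ) ≤ z i := by exact_mod_cast hz i
    unfold cov
    positivity
  · have h1 := h α hα
    unfold cov
    rw [← Finset.sum_div, le_div_iff₀ hm', one_mul]
    exact_mod_cast h1

theorem cov_weight (z : Fin 9 → ℤ) (m : ℝ) :
    ∑ i, ∑ j, cov z m i j = (∑ i, (z i : ℝ)) / m := by
  unfold cov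
  simp [Fin.sum_univ_two, Finset.sum_div]

/-- the support of the optimal polyplex -/
def Y : Fin 8 → Fin 9 → Fin 2 :=
  ![![1, 0, 1, 1, 0, 0, 0, 0, 0],
    ![1, 0, 0, 0, 1, 1, 1, 0, 0],
    ![0, 1, 1, 0, 1, 1, 1, 0, 0],
    ![0, 1, 0, 1, 1, 1, 1, 0, 0],
    ![1, 1, 0, 0, 0, 0, 0, 1, 1],
    ![0, 0, 1, 1, 1, 1, 0, 1, 1],
    ![0, 0, 1, 1, 1, 0, 1, 1, 1],
    ![0, 0, 1, 1, 0, 1, 1, 1, 1]]

/-- the numerators of the values of the optimal polyplex -/
def c : Fin 8 → ℕ := ![7, 5, 6, 6, 13, 4, 4, 4]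

/-- the optimal polyplex -/
noncomputable def K0 : (Fin 9 → Fin 2) → ℝ :=
  fun α => ∑ t, if Y t = α then (c t : ℝ) / 25 else 0

theorem Y_mem (t : Fin 8) : Y t ∈ A := by
  rw [mem_A]
  revert t
  decide

theorem K0_sum_filter (P : (Fin 9 → Fin 2) → Prop) [DecidablePred P] :
    ∑ α with P α, K0 α = ((∑ t, if P (Y t) then c t else 0 : ℕ) : ℝ) / 25 := by
  unfold K0
  rw [Finset.sum_comm]
  push_cast
  rw [Finset.sum_div]
  refine Finset.sum_congr rfl (fun t _ => ?_)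
  rw [Finset.sum_filter]
  rw [Finset.sum_eq_single (Y t)]
  · by_cases h : P (Y t) <;> simp [h]
  · intro b _ hb
    simp [hb.symm]
  · intro h
    exact absurd (Finset.mem_univ _) h

theorem K0_polyplex : IsPolyplex A K0 := by
  refine ⟨fun α => ?_, fun α hα => ?_, fun i j => ?_⟩
  · unfold K0
    refine Finset.sum_nonneg (fun t _ => ?_)
    split_ifs <;> positivity
  · unfold K0
    refine Finset.sum_eq_zero (fun t _ => ?_)
    rw [if_neg]
    intro h
    exact hα (h ▸ Y_mem t)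
  · rw [K0_sum_filter]
    rw [div_le_one (by norm_num)]
    have : ∀ (i : Fin 9) (j : Fin 2), (∑ t, if Y t i = j then c t else 0) ≤ 25 := by decide
    exact_mod_cast this i j

theorem K0_weight : ∑ α, K0 α = 49 / 25 := by
  have h := K0_sum_filter (fun _ => True)
  rw [Finset.filter_true_of_mem (fun _ _ => trivial)] at h
  rw [h]
  have : (∑ t, if True then c t else 0) = 49 := by decide
  rw [this]
  norm_num

end Pool.Agent.Q216.EX
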