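import Pool.Agent.Q216.EX.Basic

set_option autoImplicit false

/-!
# The matrix `A` is extremal, and its optimal covers
-/

namespace Pool.Agent.Q216.EX

open Finset

theorem w_nonneg (i : Fin 9) : 0 ≤ w i := by
  fin_cases i <;> simp [w]

theorem w'_nonneg (i : Fin 9) : 0 ≤ w' i := by
  fin_cases i <;> simp [w']

theorem v_nonneg (i : Fin 9) : 0 ≤ v i := by
  fin_cases i <;> simp [v]

theorem sum_w : ∑ i, (w i : ℝ) = 49 := by
  have : ∑ i, w i = 49 := by decide
  exact_mod_cast this

theorem sum_w' : ∑ i, (w' i : ℝ) = 49 := by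
  have : ∑ i, w' i = 49 := by decide
  exact_mod_cast this

theorem sum_v : ∑ i, (v i : ℝ) = 98 := by
  have : ∑ i, v i = 98 := by decide
  exact_mod_cast this

/-- any cover of `A` with weight `49/25` is optimal. -/
theorem optimal_of {L : Fin 9 → Fin 2 → ℝ} (hL : IsCover A L)
    (h : ∑ i, ∑ j, L i j = 49 / 25) : IsOptimalCover A L := by
  refine ⟨hL, fun M hM => ?_⟩
  rw [h, ← K0_weight]
  exact weak_duality K0_polyplex hM

theorem cover_w : IsCover A (cov w (25 : ℤ)) :=
  cov_cover w 25 (by norm_num) w_nonneg (fun α hα => hα)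

theorem cover_w' : IsCover A (cov w' (25 : ℤ)) :=
  cov_cover w' 25 (by norm_num) w'_nonneg (fun α hα => mem_A' α hα)

theorem cover_v : IsCover A (cov v (50 : ℤ)) :=
  cov_cover v 50 (by norm_num) v_nonneg (fun α hα => mem_Av α hα)

theorem opt_w : IsOptimalCover A (cov w (25 : ℤ)) := by
  refine optimal_of cover_w ?_
  rw [cov_weight, sum_w]; norm_num

theorem opt_w' : IsOptimalCover A (cov w' (25 : ℤ)) := by
  refine optimal_of cover_w' ?_
  rw [cov_weight, sum_w']; norm_num

theorem opt_v : IsOptimalCover A (cov v (50 : ℤ)) := by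
  refine optimal_of cover_v ?_
  rw [cov_weight, sum_v]; norm_num

theorem deficiency : HasDeficiency A (1 / 25) := by
  refine ⟨⟨K0, K0_polyplex, ?_⟩, fun K hK => ?_⟩
  · rw [K0_weight]; norm_num
  · have h := weak_duality hK cover_w
    rw [cov_weight, sum_w] at h
    refine h.trans ?_
    norm_num

theorem no_polydiagonal : ¬ ∃ K, IsPolydiagonal A K := by
  rintro ⟨K, hK, hw⟩
  have h := deficiency.2 K hK
  rw [hw] at h
  norm_num at h

/-- the antipode -/
def flip (β : Fin 9 → Fin 2) : Fin 9 → Fin 2 := fun i => 1 - β i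

theorem flip_val (β : Fin 9 → Fin 2) (i : Fin 9) :
    ((flip β i : ℕ) : ℤ) = 1 - ((β i : ℕ) : ℤ) := by
  unfold flip
  generalize β i = x
  revert x
  decide

theorem flip_ne (β : Fin 9 → Fin 2) (i : Fin 9) : flip β i ≠ β i := by
  unfold flip
  generalize β i = x
  revert x
  decide

theorem flip_mem (β : Fin 9 → Fin 2) (h : β ∉ A) : flip β ∈ A := by
  rw [mem_A] at h ⊢
  have h1 : ∑ i, w i * ((flip β i : ℕ) : ℤ) = 49 - ∑ i, w i * ((β i : ℕ) : ℤ) := by
    have h2 : ∑ i, w i = 49 := by decide
    rw [← h2, ← Finset.sum_sub_distrib]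
    refine Finset.sum_congr rfl (fun i _ => ?_)
    rw [flip_val]; ring
  omega

theorem extremal : IsExtremal A := by
  refine ⟨no_polydiagonal, fun β hβ => ?_⟩
  have hne : flip β ≠ β := fun h => flip_ne β 0 (congrFun h 0)
  refine ⟨fun α => (if β = α then 1 else 0) + if flip β = α then 1 else 0, ⟨?_, ?_, ?_⟩, ?_⟩
  · intro α
    change (0 : ℝ) ≤ (if β = α then 1 else 0) + if flip β = α then 1 else 0
    split_ifs <;> norm_num
  · intro α hα
    have h1 : β ≠ α := fun h => hα (Or.inl h.symm)
    have h2 : flip β ≠ α := fun h => hα (Or.inr (h ▸ flip_mem β hβ))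
    simp [h1, h2]
  · intro i j
    rw [Finset.sum_filter]
    have hstep : ∑ α : Fin 9 → Fin 2, (if α i = j then
        ((if β = α then (1 : ℝ) else 0) + if flip β = α then 1 else 0) else 0) =
        (if β i = j then 1 else 0) + if flip β i = j then 1 else 0 := by
      have : ∀ α : Fin 9 → Fin 2, (if α i = j then
          ((if β = α then (1 : ℝ) else 0) + if flip β = α then 1 else 0) else 0) =
          (if β = α then (if α i = j then (1 : ℝ) else 0) else 0) +
            (if flip β = α then (if α i = j then (1 : ℝ) else 0) else 0) := by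
        intro α
        split_ifs <;> simp
      simp_rw [this]
      rw [Finset.sum_add_distrib]
      simp
    rw [hstep]
    have h3 := flip_ne β i
    by_cases h4 : β i = j
    · have h5 : flip β i ≠ j := by rw [← h4]; exact h3
      simp [h4, h5]
    · simp only [h4, if_false, zero_add]
      split_ifs <;> norm_num
  · rw [Finset.sum_add_distrib]
    simp
    norm_num

theorem opt_v_entry (z : ℤ) : cov v (50 : ℤ) 7 1 ≠ (z : ℝ) * (1 / 25) := by
  intro h
  have h1 : cov v (50 : ℤ) 7 1 = 5 / 50 := by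
    simp [cov, v]
  rw [h1] at h
  have h2 : (5 : ℝ) = 2 * z := by linarith
  have h3 : (5 : ℤ) = 2 * z := by exact_mod_cast h2
  omega

end Pool.Agent.Q216.EX
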