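import Pool.Agent.Q216.EX.Basic

set_option autoImplicit false

/-!
# An extremal matrix with deficiency `2/91`

The `10`-dimensional matrix of order `2` whose unit entries are the `α` with
`∑_{α i = 1} u i ≥ 91`, `u = (33,29,29,21,21,17,14,10,3,3)`.
-/

namespace Pool.Agent.Q216.EX.Ten

open Finset

/-- no subset of the list sums to `t` -/
def avoid : List ℤ → ℤ → Bool
  | [], t => !(t == 0)
  | a :: l, t => avoid l t && avoid l (t - a)

theorem avoid_spec : ∀ (n : ℕ) (u : Fin n → ℤ) (t : ℤ) (_ : avoid (List.ofFn u) t = true)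
    (α : Fin n → Fin 2), ∑ i, u i * ((α i : ℕ) : ℤ) ≠ t
  | 0, u, t, h, α => by
    simp only [List.ofFn_zero, avoid, Bool.not_eq_true', beq_eq_false_iff_ne] at h
    simpa using h.symm
  | n + 1, u, t, h, α => by
    rw [List.ofFn_succ, avoid, Bool.and_eq_true] at h
    rw [Fin.sum_univ_succ]
    have h01 : α 0 = 0 ∨ α 0 = 1 := by
      generalize α 0 = x
      revert x
      decide
    rcases h01 with h0 | h0
    · have := avoid_spec n (fun i => u i.succ) t h.1 (fun i => α i.succ)
      rw [h0]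
      simpa using this
    · have := avoid_spec n (fun i => u i.succ) (t - u 0) h.2 (fun i => α i.succ)
      rw [h0]
      intro h3
      apply this
      rw [← h3]
      simp

/-- the weights -/
def u : Fin 10 → ℤ := ![33, 29, 29, 21, 21, 17, 14, 10, 3, 3]

/-- the unit entries -/
def B : Set (Fin 10 → Fin 2) := {α | 91 ≤ ∑ i, u i * ((α i : ℕ) : ℤ)}

theorem mem_B (α : Fin 10 → Fin 2) : α ∈ B ↔ 91 ≤ ∑ i, u i * ((α i : ℕ) : ℤ) := Iff.rfl

theorem avoid_u : avoid (List.ofFn u) 90 = true := by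
  decide +kernel

theorem sum_ne (α : Fin 10 → Fin 2) : ∑ i, u i * ((α i : ℕ) : ℤ) ≠ 90 :=
  avoid_spec 10 u 90 avoid_u α

theorem u_nonneg (i : Fin 10) : 0 ≤ u i := by
  fin_cases i <;> simp [u]

theorem sum_u : ∑ i, u i = 180 := by decide

/-- the optimal cover -/
noncomputable def cov : Fin 10 → Fin 2 → ℝ := fun i j => (u i : ℝ) * ((j : ℕ) : ℝ) / 91

theorem cov_cover : IsCover B cov := by
  refine ⟨fun i j => ?_, fun α hα => ?_⟩
  · have : (0 : ℝ) ≤ u i := by exact_mod_cast u_nonneg i
    unfold cov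
    positivity
  · have h1 := (mem_B α).1 hα
    unfold cov
    rw [← Finset.sum_div, le_div_iff₀ (by norm_num), one_mul]
    exact_mod_cast h1

theorem cov_weight : ∑ i, ∑ j, cov i j = 180 / 91 := by
  unfold cov
  have h : ∑ i, (u i : ℝ) = 180 := by exact_mod_cast sum_u
  simp only [Fin.sum_univ_two, Fin.val_zero, Fin.val_one, Nat.cast_zero, Nat.cast_one, mul_zero,
    zero_div, zero_add, mul_one]
  rw [← Finset.sum_div, h]

/-- the support of the optimal polyplex -/
def Y : Fin 10 → Fin 10 → Fin 2 :=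
  ![![1, 1, 1, 0, 0, 0, 0, 0, 0, 0],
    ![0, 0, 1, 1, 0, 1, 1, 1, 0, 0],
    ![0, 1, 0, 0, 1, 1, 1, 1, 0, 0],
    ![0, 0, 1, 0, 1, 1, 1, 1, 0, 0],
    ![0, 1, 0, 1, 1, 1, 0, 0, 1, 0],
    ![0, 1, 0, 1, 1, 1, 0, 0, 0, 1],
    ![0, 1, 0, 1, 1, 0, 1, 0, 1, 1],
    ![1, 0, 0, 0, 1, 1, 1, 0, 1, 1],
    ![1, 0, 0, 1, 1, 0, 0, 1, 1, 1],
    ![0, 1, 1, 0, 0, 1, 0, 1, 1, 1]]

/-- the numerators of the values of the optimal polyplex -/
def c : Fin 10 → ℕ := ![39, 35, 10, 2, 3, 3, 21, 23, 29, 15]

/-- the optimal polyplex -/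
noncomputable def K0 : (Fin 10 → Fin 2) → ℝ :=
  fun α => ∑ t, if Y t = α then (c t : ℝ) / 91 else 0

theorem Y_mem (t : Fin 10) : Y t ∈ B := by
  rw [mem_B]
  revert t
  decide

theorem K0_sum_filter (P : (Fin 10 → Fin 2) → Prop) [DecidablePred P] :
    ∑ α with P α, K0 α = ((∑ t, if P (Y t) then c t else 0 : ℕ) : ℝ) / 91 := by
  unfold K0
  rw [Finset.sum_comm]
  push_cast
  rw [Finset.sum_div]
  refine Finset.sum_congr rfl (fun t _ => ?_)
  rw [Finset.sum_filter]
  rw [Finset.sum_eq_single (Y t)]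
  · by_cases h : P (Y t) <;> simp [h]
  · intro b _ hb
    simp [hb.symm]
  · intro h
    exact absurd (Finset.mem_univ _) h

theorem K0_polyplex : IsPolyplex B K0 := by
  refine ⟨fun α => ?_, fun α hα => ?_, fun i j => ?_⟩
  · unfold K0
    refine Finset.sum_nonneg (fun t _ => ?_)
    split_ifs <;> positivity
  · unfold K0
    refine Finset.sum_eq_zero (fun t _ => ?_)
    rw [if_neg]
    intro h
    exact hα (h ▸ Y_mem t)
  · rw [K0_sum_filter]
    rw [div_le_one (by norm_num)]
    have : ∀ (i : Fin 10) (j : Fin 2), (∑ t, if Y t i = j then c t else 0) ≤ 91 := by decide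
    exact_mod_cast this i j

theorem K0_weight : ∑ α, K0 α = 180 / 91 := by
  have h := K0_sum_filter (fun _ => True)
  rw [Finset.filter_true_of_mem (fun _ _ => trivial)] at h
  rw [h]
  have : (∑ t, if True then c t else 0) = 180 := by decide
  rw [this]
  norm_num

theorem deficiency : HasDeficiency B (2 / 91) := by
  refine ⟨⟨K0, K0_polyplex, ?_⟩, fun K hK => ?_⟩
  · rw [K0_weight]; norm_num
  · have h := weak_duality hK cov_cover
    rw [cov_weight] at h
    refine h.trans ?_
    norm_num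

theorem no_polydiagonal : ¬ ∃ K, IsPolydiagonal B K := by
  rintro ⟨K, hK, hw⟩
  have h := deficiency.2 K hK
  rw [hw] at h
  norm_num at h

/-- the antipode -/
def flip (β : Fin 10 → Fin 2) : Fin 10 → Fin 2 := fun i => 1 - β i

theorem flip_val (β : Fin 10 → Fin 2) (i : Fin 10) :
    ((flip β i : ℕ) : ℤ) = 1 - ((β i : ℕ) : ℤ) := by
  unfold flip
  generalize β i = x
  revert x
  decide

theorem flip_ne (β : Fin 10 → Fin 2) (i : Fin 10) : flip β i ≠ β i := by
  unfold flip
  generalize β i = x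
  revert x
  decide

theorem flip_mem (β : Fin 10 → Fin 2) (h : β ∉ B) : flip β ∈ B := by
  rw [mem_B] at h ⊢
  have h1 : ∑ i, u i * ((flip β i : ℕ) : ℤ) = 180 - ∑ i, u i * ((β i : ℕ) : ℤ) := by
    rw [← sum_u, ← Finset.sum_sub_distrib]
    refine Finset.sum_congr rfl (fun i _ => ?_)
    rw [flip_val]; ring
  have h2 := sum_ne β
  omega

theorem extremal : IsExtremal B := by
  refine ⟨no_polydiagonal, fun β hβ => ?_⟩
  have hne : flip β ≠ β := fun h => flip_ne β 0 (congrFun h 0)
  refine ⟨fun α => (if β = α then 1 else 0) + if flip β = α then 1 else 0, ⟨?_, ?_, ?_⟩, ?_⟩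
  · intro α
    change (0 : ℝ) ≤ (if β = α then 1 else 0) + if flip β = α then 1 else 0
    split_ifs <;> norm_num
  · intro α hα
    have h1 : β ≠ α := fun h => hα (Or.inl h.symm)
    have h2 : flip β ≠ α := fun h => hα (Or.inr (h ▸ flip_mem β hβ))
    simp [h1, h2]
  · intro i j
    rw [Finset.sum_filter]
    have hstep : ∑ α : Fin 10 → Fin 2, (if α i = j then
        ((if β = α then (1 : ℝ) else 0) + if flip β = α then 1 else 0) else 0) =
        (if β i = j then 1 else 0) + if flip β i = j then 1 else 0 := by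
      have : ∀ α : Fin 10 → Fin 2, (if α i = j then
          ((if β = α then (1 : ℝ) else 0) + if flip β = α then 1 else 0) else 0) =
          (if β = α then (if α i = j then (1 : ℝ) else 0) else 0) +
            (if flip β = α then (if α i = j then (1 : ℝ) else 0) else 0) := by
        intro α
        split_ifs <;> simp
      simp_rw [this]
      rw [Finset.sum_add_distrib]
      simp
    rw [hstep]
    have h3 := flip_ne β i
    by_cases h4 : β i = j
    · have h5 : flip β i ≠ j := by rw [← h4]; exact h3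
      simp [h4, h5]
    · simp only [h4, if_false, zero_add]
      split_ifs <;> norm_num
  · rw [Finset.sum_add_distrib]
    simp
    norm_num

end Pool.Agent.Q216.EX.Ten
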